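import Mathlib

set_option autoImplicit false

namespace Pool.Agent.Results.MP_73128c_co.FourCardTypes

/-- The graph `G - v`: the subgraph induced on the vertices different from `v`. -/
abbrev card {V : Type*} (G : SimpleGraph V) (v : V) : SimpleGraph {w : V // w ≠ v} :=
  G.comap (Subtype.val : {w : V // w ≠ v} → V)

/-- Two vertices are related when the corresponding cards are isomorphic. -/
def cardSetoid {V : Type*} (G : SimpleGraph V) : Setoid V where
  r v w := Nonempty (card G v ≃g card G w)
  iseqv :=
    { refl := fun _ => ⟨RelIso.refl _⟩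
      symm := fun ⟨f⟩ => ⟨f.symm⟩
      trans := fun ⟨f⟩ ⟨g⟩ => ⟨f.trans g⟩ }

/-- Two vertices are related when some automorphism of `G` maps the first to the second. -/
def orbitSetoid {V : Type*} (G : SimpleGraph V) : Setoid V where
  r v w := ∃ f : G ≃g G, f v = w
  iseqv :=
    { refl := fun _ => ⟨RelIso.refl _, rfl⟩
      symm := fun ⟨f, hf⟩ => ⟨f.symm, by rw [← hf]; exact f.symm_apply_apply _⟩
      trans := fun ⟨f, hf⟩ ⟨g, hg⟩ => ⟨f.trans g, by
        rw [← hg, ← hf]; rfl⟩ }

/-- The number of isomorphism types of cards of `G`. -/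
noncomputable def numCardTypes {V : Type*} (G : SimpleGraph V) : ℕ :=
  Nat.card (Quotient (cardSetoid G))

/-- The number of orbits of the automorphism group of `G` on the vertices. -/
noncomputable def numOrbits {V : Type*} (G : SimpleGraph V) : ℕ :=
  Nat.card (Quotient (orbitSetoid G))

/-- Adjacency matrix of the example, as a Boolean table. -/
def tab : Fin 9 → Fin 9 → Bool := fun i j =>
  Nat.testBit (![408, 112, 480, 193, 259, 390, 14, 45, 53] i) j.val

/-- The example: a connected graph on nine vertices. -/
def G9 : SimpleGraph (Fin 9) where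
  Adj i j := tab i j = true
  symm := by
    have h : ∀ i j : Fin 9, tab i j = true → tab j i = true := by decide
    exact ⟨fun i j => h i j⟩
  loopless := by
    have h : ∀ i : Fin 9, ¬ tab i i = true := by decide
    exact ⟨h⟩

instance : DecidableRel G9.Adj := fun i j => inferInstanceAs (Decidable (tab i j = true))

/-! ### Counting classes -/

theorem card_quot {V : Type*} (s : Setoid V) {n : ℕ} (c : V → Fin n)
    (hc : ∀ v w, s v w ↔ c v = c w) (hs : Function.Surjective c) :
    Nat.card (Quotient s) = n := by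
  have e : Quotient s ≃ Fin n :=
    Equiv.ofBijective (Quotient.lift c (fun a b h => (hc a b).1 h)) (by
      constructor
      · intro x y
        induction x using Quotient.inductionOn with
        | h a =>
          induction y using Quotient.inductionOn with
          | h b =>
            intro h
            exact Quotient.sound ((hc a b).2 h)
      · intro k
        obtain ⟨v, hv⟩ := hs k
        exact ⟨Quotient.mk s v, hv⟩)
  simpa using Nat.card_congr e

/-! ### Invariants -/

/-- The number of walks with two edges. -/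
def walks2 {V : Type*} [Fintype V] (G : SimpleGraph V) [DecidableRel G.Adj] : ℕ :=
  ∑ a : V, ∑ b : V, ∑ c : V, if G.Adj a b ∧ G.Adj b c then 1 else 0

theorem walks2_congr {V W : Type*} [Fintype V] [Fintype W] (G : SimpleGraph V)
    (H : SimpleGraph W) [DecidableRel G.Adj] [DecidableRel H.Adj] (f : G ≃g H) :
    walks2 G = walks2 H := by
  unfold walks2
  refine Fintype.sum_equiv f.toEquiv _ _ fun a => ?_
  refine Fintype.sum_equiv f.toEquiv _ _ fun b => ?_
  refine Fintype.sum_equiv f.toEquiv _ _ fun c => ?_
  have h1 : H.Adj (f.toEquiv a) (f.toEquiv b) ↔ G.Adj a b := f.map_rel_iff'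
  have h2 : H.Adj (f.toEquiv b) (f.toEquiv c) ↔ G.Adj b c := f.map_rel_iff'
  simp only [h1, h2]

/-- The number of walks with two edges starting at `v`. -/
def walks2At {V : Type*} [Fintype V] (G : SimpleGraph V) [DecidableRel G.Adj] (v : V) : ℕ :=
  ∑ b : V, ∑ c : V, if G.Adj v b ∧ G.Adj b c then 1 else 0

/-- The number of ways of choosing a path with two edges among the neighbours of `v`. -/
def cherries {V : Type*} [Fintype V] [DecidableEq V] (G : SimpleGraph V)
    [DecidableRel G.Adj] (v : V) : ℕ :=
  ∑ w : V, ∑ x : V, ∑ y : V,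
    if (G.Adj v w ∧ G.Adj v x ∧ G.Adj v y) ∧ (G.Adj w x ∧ G.Adj w y) ∧ x ≠ y then 1 else 0

theorem walks2At_congr {V : Type*} [Fintype V] (G : SimpleGraph V)
    [DecidableRel G.Adj] (f : G ≃g G) (v : V) : walks2At G v = walks2At G (f v) := by
  unfold walks2At
  refine Fintype.sum_equiv f.toEquiv _ _ fun b => ?_
  refine Fintype.sum_equiv f.toEquiv _ _ fun c => ?_
  have h1 : G.Adj (f v) (f.toEquiv b) ↔ G.Adj v b := f.map_rel_iff'
  have h2 : G.Adj (f.toEquiv b) (f.toEquiv c) ↔ G.Adj b c := f.map_rel_iff'
  simp only [h1, h2]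

theorem cherries_congr {V : Type*} [Fintype V] [DecidableEq V] (G : SimpleGraph V)
    [DecidableRel G.Adj] (f : G ≃g G) (v : V) : cherries G v = cherries G (f v) := by
  unfold cherries
  refine Fintype.sum_equiv f.toEquiv _ _ fun w => ?_
  refine Fintype.sum_equiv f.toEquiv _ _ fun x => ?_
  refine Fintype.sum_equiv f.toEquiv _ _ fun y => ?_
  have h1 : ∀ z, G.Adj (f v) (f.toEquiv z) ↔ G.Adj v z := fun z => f.map_rel_iff'
  have h2 : ∀ z, G.Adj (f.toEquiv w) (f.toEquiv z) ↔ G.Adj w z := fun z => f.map_rel_iff'
  have h3 : f.toEquiv x ≠ f.toEquiv y ↔ x ≠ y := f.toEquiv.injective.ne_iff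
  simp only [h1, h2, h3]

/-! ### The symmetries of the example -/

/-- The nontrivial automorphism of the example. -/
def tau : Equiv.Perm (Fin 9) where
  toFun := ![0, 6, 5, 4, 3, 2, 1, 8, 7]
  invFun := ![0, 6, 5, 4, 3, 2, 1, 8, 7]
  left_inv := by decide
  right_inv := by decide

/-- A permutation carrying `G9 - 2` to `G9 - 7`. -/
def rho : Equiv.Perm (Fin 9) where
  toFun := ![8, 6, 7, 0, 2, 1, 3, 4, 5]
  invFun := ![3, 5, 4, 6, 7, 8, 1, 2, 0]
  left_inv := by decide
  right_inv := by decide

theorem card_rel (σ : Equiv.Perm (Fin 9)) (v : Fin 9)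
    (h : ∀ a b, a ≠ v → b ≠ v → (G9.Adj (σ a) (σ b) ↔ G9.Adj a b)) :
    cardSetoid G9 v (σ v) := by
  refine ⟨⟨⟨fun x => ⟨σ x.1, fun hx => x.2 (σ.injective hx)⟩,
    fun x => ⟨σ.symm x.1, fun hx => x.2 ((Equiv.symm_apply_eq σ).1 hx)⟩,
    fun x => Subtype.ext (σ.symm_apply_apply x.1),
    fun x => Subtype.ext (σ.apply_symm_apply x.1)⟩, ?_⟩⟩
  intro a b
  exact h a.1 b.1 a.2 b.2

theorem tau_adj : ∀ a b, (G9.Adj (tau a) (tau b) ↔ G9.Adj a b) := by decide

theorem card_tau (v : Fin 9) : cardSetoid G9 v (tau v) :=
  card_rel tau v fun a b _ _ => tau_adj a b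

theorem card_two_seven : cardSetoid G9 2 7 :=
  card_rel rho 2 (by decide)

/-- The card type of a vertex. -/
def ctype : Fin 9 → Fin 4 := ![0, 1, 2, 3, 3, 2, 1, 2, 2]

/-- Representatives of the card types. -/
def crep : Fin 4 → Fin 9 := ![0, 1, 2, 3]

theorem card_to_rep (v : Fin 9) : cardSetoid G9 v (crep (ctype v)) := by
  have h27 : cardSetoid G9 7 2 := (cardSetoid G9).symm' card_two_seven
  fin_cases v
  · exact (cardSetoid G9).refl' _
  · exact (cardSetoid G9).refl' _
  · exact (cardSetoid G9).refl' _
  · exact (cardSetoid G9).refl' _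
  · exact card_tau 4
  · exact card_tau 5
  · exact card_tau 6
  · exact h27
  · exact (cardSetoid G9).trans' (card_tau 8) h27

theorem walks2_card : ∀ v : Fin 9,
    walks2 (card G9 v) = ![76, 90, 74, 88, 88, 74, 90, 74, 74] v := by
  decide +kernel

theorem card_iff (v w : Fin 9) : cardSetoid G9 v w ↔ ctype v = ctype w := by
  constructor
  · rintro ⟨f⟩
    have h := walks2_congr _ _ f
    rw [walks2_card v, walks2_card w] at h
    revert v w
    have key : ∀ v w : Fin 9,
        (![76, 90, 74, 88, 88, 74, 90, 74, 74] : Fin 9 → ℕ) v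
          = (![76, 90, 74, 88, 88, 74, 90, 74, 74] : Fin 9 → ℕ) w → ctype v = ctype w := by
      decide
    intro v w _ h
    exact key v w h
  · intro h
    have h1 := card_to_rep v
    have h2 := card_to_rep w
    rw [h] at h1
    exact (cardSetoid G9).trans' h1 ((cardSetoid G9).symm' h2)

/-- The orbit of a vertex. -/
def otype : Fin 9 → Fin 5 := ![0, 1, 2, 3, 3, 2, 1, 4, 4]

/-- Representatives of the orbits. -/
def orep : Fin 5 → Fin 9 := ![0, 1, 2, 3, 7]

theorem orbit_tau (v : Fin 9) : orbitSetoid G9 v (tau v) :=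
  ⟨⟨tau, fun {a b} => tau_adj a b⟩, rfl⟩

theorem orbit_to_rep (v : Fin 9) : orbitSetoid G9 v (orep (otype v)) := by
  fin_cases v
  · exact (orbitSetoid G9).refl' _
  · exact (orbitSetoid G9).refl' _
  · exact (orbitSetoid G9).refl' _
  · exact (orbitSetoid G9).refl' _
  · exact orbit_tau 4
  · exact orbit_tau 5
  · exact orbit_tau 6
  · exact (orbitSetoid G9).refl' _
  · exact orbit_tau 8

theorem invariants_separate : ∀ v w : Fin 9, walks2At G9 v = walks2At G9 w →
    cherries G9 v = cherries G9 w → otype v = otype w := by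
  decide +kernel

theorem orbit_iff (v w : Fin 9) : orbitSetoid G9 v w ↔ otype v = otype w := by
  constructor
  · rintro ⟨f, rfl⟩
    exact invariants_separate _ _ (walks2At_congr G9 f v) (cherries_congr G9 f v)
  · intro h
    have h1 := orbit_to_rep v
    have h2 := orbit_to_rep w
    rw [h] at h1
    exact (orbitSetoid G9).trans' h1 ((orbitSetoid G9).symm' h2)

theorem connected : G9.Connected := by
  have hr : ∀ v : Fin 9, G9.Reachable 0 v := by
    have step : ∀ {a b c : Fin 9}, G9.Reachable a b → G9.Adj b c → G9.Reachable a c :=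
      fun h hab => h.trans hab.reachable
    have h0 : G9.Reachable 0 0 := SimpleGraph.Reachable.refl _
    have h3 : G9.Reachable 0 3 := step h0 (by decide)
    have h4 : G9.Reachable 0 4 := step h0 (by decide)
    have h7 : G9.Reachable 0 7 := step h0 (by decide)
    have h8 : G9.Reachable 0 8 := step h0 (by decide)
    have h1 : G9.Reachable 0 1 := step h4 (by decide)
    have h6 : G9.Reachable 0 6 := step h3 (by decide)
    have h2 : G9.Reachable 0 2 := step h7 (by decide)
    have h5 : G9.Reachable 0 5 := step h7 (by decide)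
    intro v
    fin_cases v
    · exact h0
    · exact h1
    · exact h2
    · exact h3
    · exact h4
    · exact h5
    · exact h6
    · exact h7
    · exact h8
  have : Nonempty (Fin 9) := ⟨0⟩
  exact SimpleGraph.Connected.mk fun u v => (hr u).symm.trans (hr v)

/-- **Lauri's question for `k = 4`.**  There is a connected graph, with nine vertices, that has
exactly four isomorphism types of cards and whose automorphism group has exactly five orbits on
the vertices. -/
theorem result : ∃ G : SimpleGraph (Fin 9),
    G.Connected ∧ numCardTypes G = 4 ∧ numOrbits G = 5 := by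
  refine ⟨G9, connected, ?_, ?_⟩
  · exact card_quot _ ctype card_iff (by decide)
  · exact card_quot _ otype orbit_iff (by decide)

end Pool.Agent.Results.MP_73128c_co.FourCardTypes
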